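import Pool.Agent.D0H61.AB.Stm

/-!
Module LOC of the project AB (helper61, MP_4ab349_nt).
-/

set_option autoImplicit false

namespace Pool.Agent.D0H25.AB

open Filter Topology MeasureTheory Finset
open Pool.Agent.D0H61.AB

theorem rad_pos (n : ℕ) : 0 < rad n :=
  Finset.prod_pos fun _ hp => (Nat.prime_of_mem_primeFactors hp).pos

theorem rad_mul_le {a b : ℕ} (ha : a ≠ 0) (hb : b ≠ 0) : rad (a * b) ≤ rad a * rad b := by
  unfold rad
  rw [Nat.primeFactors_mul ha hb, ← Finset.prod_union_inter]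
  exact Nat.le_mul_of_pos_right _ (Finset.prod_pos fun _ hp =>
    (Nat.prime_of_mem_primeFactors (Finset.mem_inter.1 hp).1).pos)

theorem rad_le {a : ℕ} (ha : 0 < a) : rad a ≤ a :=
  Nat.le_of_dvd ha (Nat.prod_primeFactors_dvd a)

theorem rad_pow_le {p : ℕ} (hp : p.Prime) (k : ℕ) : rad (p ^ k) ≤ p := by
  unfold rad
  rcases Nat.eq_zero_or_pos k with h | h
  · subst h
    simp only [pow_zero, Nat.primeFactors_one, Finset.prod_empty]
    exact hp.one_lt.le
  · rw [Nat.primeFactors_pow _ h.ne', hp.primeFactors, Finset.prod_singleton]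

theorem meas_Gd (k : ℕ) (s : ℝ) (b : ℕ) : MeasurableSet (Gd k s b) := by
  have h : Gd k s b = ⋃ c : ℕ, ⋃ (_ : 0 < c ∧ 2 ^ k ∣ c ∧ Nat.Coprime b c),
      {α : ℝ | |α * b + s - c| ≤ 1} := by
    ext α
    simp only [Gd, Set.mem_ofPred_eq, Set.mem_iUnion, exists_prop]
    constructor
    · rintro ⟨c, h1, h2, h3, h4⟩
      exact ⟨c, ⟨h1, h2, h3⟩, h4⟩
    · rintro ⟨c, ⟨h1, h2, h3⟩, h4⟩
      exact ⟨c, h1, h2, h3, h4⟩
  rw [h]
  refine MeasurableSet.iUnion fun c => MeasurableSet.iUnion fun _ => ?_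
  exact (isClosed_le (by fun_prop) continuous_const).measurableSet

theorem Gd_sub (k : ℕ) (s : ℝ) (b : ℕ) : Gd k s b ⊆ Dv k s b := by
  rintro α ⟨c, _, ⟨r, hr⟩, _, h⟩
  refine ⟨r, ?_⟩
  rw [hr] at h
  push_cast at h
  exact_mod_cast h

theorem mass {C : ℝ} (hC : 0 < C)
    (hOVL : ∀ (k : ℕ) (s x y : ℝ) (b b' : ℕ), 3 ≤ k → x < y → 0 < b → 0 < b' →
      (2 : ℝ) ^ k ≤ (y - x) * Nat.gcd b b' →
      volume (Set.Icc x y ∩ Dv k s b ∩ Dv k s b') ≤
        ENNReal.ofReal (C * (y - x) * ((1 / 2 ^ k) * ((Nat.gcd b b' : ℝ) / (max b b' : ℕ)) +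
          (1 / 2 ^ k) ^ 2)))
    (hFST : S_FST) (hPZ : S_PZ) (B : Finset ℕ) (k t : ℕ) (s x y E : ℝ) (hk : 3 ≤ k) (hx : 0 < x)
    (hxy : x < y) (hpos : ∀ b ∈ B, 0 < b) (hodd : ∀ b ∈ B, ¬ 2 ∣ 3 ^ t * b)
    (hsum : ∀ b ∈ B, ∑ p ∈ (3 ^ t * b).primeFactors, 1 / (p : ℝ) ≤ 1 / 2)
    (hs : ∀ b ∈ B, |s| + 2 ≤ x * ((3 ^ t * b : ℕ) : ℝ))
    (hw : ∀ b ∈ B, 2 ^ k * (16 * (((3 ^ t * b).primeFactors.card : ℝ) + 1)) ≤
      (y - x) * ((3 ^ t * b : ℕ) : ℝ))
    (hg : (2 : ℝ) ^ k ≤ (y - x) * 3 ^ t)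
    (hE : ∀ b ∈ B, ∑ b' ∈ B, (Nat.gcd b b' : ℝ) / (max b b' : ℕ) ≤ E)
    (hEB : E ≤ B.card / 2 ^ k) (hB : B.Nonempty) :
    ENNReal.ofReal ((y - x) / (128 * C)) ≤
      volume (Set.Icc x y ∩ ⋃ b ∈ B, Gd k s (3 ^ t * b)) := by
  have hwpos : 0 < y - x := sub_pos.2 hxy
  have hδ : (0 : ℝ) < 1 / 2 ^ k := by positivity
  have hfin : ∀ S : Set ℝ, volume (Set.Icc x y ∩ S) ≠ ⊤ := fun S =>
    ((measure_mono Set.inter_subset_left).trans_lt (by
      rw [Real.volume_Icc]; exact ENNReal.ofReal_lt_top)).ne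
  have h1 : ∀ b ∈ B, (y - x) * (1 / 2 ^ k) / 8 ≤
      (volume (Set.Icc x y ∩ Gd k s (3 ^ t * b))).toReal := by
    intro b hb
    have h3 : 0 < 3 ^ t * b := Nat.mul_pos (by positivity) (hpos b hb)
    have := hFST k s x y (3 ^ t * b) hk hx hxy h3 (hodd b hb) (hsum b hb) (hs b hb) (hw b hb)
    exact (ENNReal.ofReal_le_iff_le_toReal (hfin _)).1 this
  have h2 : ∀ b ∈ B, ∀ b' ∈ B,
      (volume (Set.Icc x y ∩ Gd k s (3 ^ t * b) ∩ Gd k s (3 ^ t * b'))).toReal ≤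
        C * (y - x) * ((1 / 2 ^ k) * ((Nat.gcd b b' : ℝ) / (max b b' : ℕ)) + (1 / 2 ^ k) ^ 2) := by
    intro b hb b' hb'
    have h3 : 0 < 3 ^ t * b := Nat.mul_pos (by positivity) (hpos b hb)
    have h3' : 0 < 3 ^ t * b' := Nat.mul_pos (by positivity) (hpos b' hb')
    have e1 : Nat.gcd (3 ^ t * b) (3 ^ t * b') = 3 ^ t * Nat.gcd b b' := Nat.gcd_mul_left _ _ _
    have e2 : max (3 ^ t * b) (3 ^ t * b') = 3 ^ t * max b b' := by
      rw [Nat.mul_max_mul_left]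
    have hgc : 1 ≤ Nat.gcd b b' := Nat.gcd_pos_of_pos_left _ (hpos b hb)
    have h4 : (2 : ℝ) ^ k ≤ (y - x) * Nat.gcd (3 ^ t * b) (3 ^ t * b') := by
      rw [e1]
      push_cast
      have hgc' : (1 : ℝ) ≤ Nat.gcd b b' := by exact_mod_cast hgc
      have : (0 : ℝ) ≤ (y - x) * 3 ^ t := by positivity
      nlinarith
    have h5 := hOVL k s x y (3 ^ t * b) (3 ^ t * b') hk hxy h3 h3' h4
    have e3 : ((Nat.gcd (3 ^ t * b) (3 ^ t * b') : ℕ) : ℝ) / ((max (3 ^ t * b) (3 ^ t * b') : ℕ) : ℝ)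
        = (Nat.gcd b b' : ℝ) / ((max b b' : ℕ) : ℝ) := by
      rw [e1, e2]
      push_cast
      rw [mul_div_mul_left _ _ (by positivity)]
    rw [e3] at h5
    have hnn : 0 ≤ C * (y - x) * ((1 / 2 ^ k) * ((Nat.gcd b b' : ℝ) / (max b b' : ℕ)) +
        (1 / 2 ^ k) ^ 2) := by positivity
    refine ENNReal.toReal_le_of_le_ofReal hnn (le_trans (measure_mono ?_) h5)
    exact Set.inter_subset_inter (Set.inter_subset_inter le_rfl (Gd_sub _ _ _)) (Gd_sub _ _ _)
  have hcard : (0 : ℝ) < B.card := by exact_mod_cast hB.card_pos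
  have hS1 : (B.card : ℝ) * ((y - x) * (1 / 2 ^ k) / 8) ≤
      ∑ b ∈ B, (volume (Set.Icc x y ∩ Gd k s (3 ^ t * b))).toReal := by
    rw [← nsmul_eq_mul]
    exact Finset.card_nsmul_le_sum _ _ _ h1
  have hS2 : ∑ b ∈ B, ∑ b' ∈ B,
      (volume (Set.Icc x y ∩ Gd k s (3 ^ t * b) ∩ Gd k s (3 ^ t * b'))).toReal ≤
      2 * C * (y - x) * (B.card / 2 ^ k) ^ 2 := by
    have h6 : ∀ b ∈ B, ∑ b' ∈ B,
        (volume (Set.Icc x y ∩ Gd k s (3 ^ t * b) ∩ Gd k s (3 ^ t * b'))).toReal ≤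
        C * (y - x) * ((1 / 2 ^ k) * E + B.card * (1 / 2 ^ k) ^ 2) := by
      intro b hb
      refine (Finset.sum_le_sum fun b' hb' => h2 b hb b' hb').trans ?_
      rw [← Finset.mul_sum, Finset.sum_add_distrib, ← Finset.mul_sum, Finset.sum_const,
        nsmul_eq_mul]
      have h7 := hE b hb
      gcongr
    refine (Finset.sum_le_sum h6).trans ?_
    rw [Finset.sum_const, nsmul_eq_mul]
    have h8 : (1 / 2 ^ k) * E ≤ (1 / 2 ^ k) * ((B.card : ℝ) / 2 ^ k) := by gcongr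
    have h9 : (B.card : ℝ) * (C * (y - x) * ((1 / 2 ^ k) * E + B.card * (1 / 2 ^ k) ^ 2)) ≤
        (B.card : ℝ) * (C * (y - x) * ((1 / 2 ^ k) * ((B.card : ℝ) / 2 ^ k) +
          B.card * (1 / 2 ^ k) ^ 2)) := by gcongr
    refine h9.trans (le_of_eq ?_)
    field_simp
    ring
  have hP := hPZ x y ℕ B (fun b => Gd k s (3 ^ t * b)) hxy fun b _ => meas_Gd _ _ _
  set U : ℝ := (volume (Set.Icc x y ∩ ⋃ b ∈ B, Gd k s (3 ^ t * b))).toReal with hU
  have hU0 : 0 ≤ U := ENNReal.toReal_nonneg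
  have h10 : ((B.card : ℝ) * ((y - x) * (1 / 2 ^ k) / 8)) ^ 2 ≤
      U * (2 * C * (y - x) * (B.card / 2 ^ k) ^ 2) := by
    refine (pow_le_pow_left₀ (by positivity) hS1 2).trans (hP.trans ?_)
    gcongr
  have h11 : (y - x) / (128 * C) ≤ U := by
    rw [div_le_iff₀ (by positivity)]
    have h12 : ((B.card : ℝ) * ((y - x) * (1 / 2 ^ k) / 8)) ^ 2 =
        ((y - x) * (B.card / 2 ^ k) ^ 2) * ((y - x) / 64) := by
      field_simp
      ring
    have h13 : U * (2 * C * (y - x) * (B.card / 2 ^ k) ^ 2) =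
        ((y - x) * (B.card / 2 ^ k) ^ 2) * (U * (2 * C)) := by ring
    rw [h12, h13] at h10
    have h14 := le_of_mul_le_mul_left h10 (by positivity)
    linarith
  exact (ENNReal.ofReal_le_iff_le_toReal (hfin _)).2 h11


theorem pf_sub (t : ℕ) {b : ℕ} (hb : b ≠ 0) :
    (3 ^ t * b).primeFactors ⊆ insert 3 b.primeFactors := by
  intro p hp
  have hp' := Nat.prime_of_mem_primeFactors hp
  have hd := Nat.dvd_of_mem_primeFactors hp
  rw [Finset.mem_insert]
  rcases (hp'.dvd_mul).1 hd with h | h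
  · left
    exact (Nat.prime_dvd_prime_iff_eq hp' Nat.prime_three).1 (hp'.dvd_of_dvd_pow h)
  · right
    exact Nat.mem_primeFactors.2 ⟨hp', h, hb⟩

/-- the growth conditions -/
theorem grow {w x s ν : ℝ} {M : ℕ} (hw : 0 < w) (hx : 0 < x)
    (hν : 44 + 272 / w + 4 * (M : ℝ) + 8 * (|s| + 2) / x ≤ ν) :
    44 ≤ ν ∧ 32 * (ν + 2) ≤ w * Real.exp (ν / 2) ∧ (M : ℝ) ≤ Real.exp ν / 4 ∧
      Real.exp (ν / 2) ≤ x * (Real.exp ν / 4) - |s| - 1 := by
  have h1 : 0 ≤ 272 / w := by positivity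
  have h2 : 0 ≤ 8 * (|s| + 2) / x := by positivity
  have h3 : (0 : ℝ) ≤ 4 * (M : ℝ) := by positivity
  have h44 : 44 ≤ ν := by linarith
  have hq : 1 + ν / 2 + (ν / 2) ^ 2 / 2 ≤ Real.exp (ν / 2) :=
    Real.quadratic_le_exp_of_nonneg (by linarith)
  have hwν : 272 ≤ w * ν := by
    have : 272 / w ≤ ν := by linarith
    rw [div_le_iff₀ hw] at this
    linarith
  have hxν : 8 * (|s| + 2) ≤ x * ν := by
    have : 8 * (|s| + 2) / x ≤ ν := by linarith
    rw [div_le_iff₀ hx] at this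
    linarith
  refine ⟨h44, ?_, ?_, ?_⟩
  · have h5 : ν ^ 2 / 8 ≤ Real.exp (ν / 2) := by nlinarith
    have h6 : w * (ν ^ 2 / 8) ≤ w * Real.exp (ν / 2) := by gcongr
    nlinarith
  · have := Real.add_one_le_exp ν
    linarith
  · have h7 : Real.exp ν = Real.exp (ν / 2) ^ 2 := by
      rw [← Real.exp_nat_mul]
      congr 1
      push_cast
      ring
    rw [h7]
    set z := Real.exp (ν / 2)
    have hz : ν / 2 ≤ z := by nlinarith [sq_nonneg (ν / 2)]
    have hz1 : 1 ≤ z := by linarith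
    have h8 : |s| + 2 ≤ x * z / 4 := by
      have : x * (ν / 2) ≤ x * z := by gcongr
      linarith
    have hs0 := abs_nonneg s
    nlinarith

theorem half_le {κ l : ℝ} (hκ : 0 < κ) (hl : 0 < l) (h : 4 / κ ≤ Real.exp (l / 2) / (l / 2)) :
    Real.exp (l / 2) ≤ κ * Real.exp l / l / 2 := by
  have h3 : Real.exp l = Real.exp (l / 2) * Real.exp (l / 2) := by
    rw [← Real.exp_add]
    congr 1
    ring
  rw [div_le_div_iff₀ hκ (by linarith)] at h
  rw [h3, le_div_iff₀ (by norm_num), le_div_iff₀ hl]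
  have h4 := Real.exp_pos (l / 2)
  calc Real.exp (l / 2) * 2 * l = Real.exp (l / 2) * (4 * (l / 2)) := by ring
    _ ≤ Real.exp (l / 2) * (Real.exp (l / 2) * κ) := mul_le_mul_of_nonneg_left h h4.le
    _ = _ := by ring

theorem V_le {l c : ℝ} (hl : 0 < l) (h1 : Real.exp (l / 2) ≤ Real.log c)
    (h2 : Real.log c ≤ 4 * (Real.exp (2 * l) / l)) : V c ≤ 3 * (Real.exp l / l) := by
  have hLL : l / 2 ≤ Real.log (Real.log c) := by
    have h1 := Real.log_le_log (Real.exp_pos _) h1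
    rwa [Real.log_exp] at h1
  unfold V
  rw [Real.sqrt_le_iff]
  refine ⟨by positivity, ?_⟩
  calc Real.log c / Real.log (Real.log c) ≤ 4 * (Real.exp (2 * l) / l) / (l / 2) :=
        div_le_div₀ (by positivity) h2 (by positivity) hLL
    _ = 8 * (Real.exp l / l) ^ 2 := by
        have h3 : Real.exp (2 * l) = Real.exp l * Real.exp l := by
          rw [← Real.exp_add]
          congr 1
          ring
        rw [h3]
        field_simp
        ring
    _ ≤ (3 * (Real.exp l / l)) ^ 2 := by nlinarith [sq_nonneg (Real.exp l / l)]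

/-- Module LOC. -/
theorem t_LOC : S_FAM → S_NEAR → S_OVL → S_FST → S_PZ → S_LOC := by
  intro hFAM hNEAR hOVL hFST hPZ
  obtain ⟨κ, hκ, l0, hl0, hfam⟩ := hFAM
  obtain ⟨l1, hnear⟩ := hNEAR
  obtain ⟨C, hC, hovl⟩ := hOVL
  refine ⟨κ / 12, 128 * C, by positivity, by positivity, ?_⟩
  intro s x y M hx hxy hy1
  have hw : 0 < y - x := sub_pos.2 hxy
  set N0 : ℝ := 44 + 272 / (y - x) + 4 * (M : ℝ) + 8 * (|s| + 2) / x with hN0
  set K : ℝ := x + 2 + |s| with hK
  have hKpos : 0 < K := by positivity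
  -- the choice of l
  have T1 : Tendsto (fun l : ℕ => Real.exp (l : ℝ) / (l : ℝ)) atTop atTop := by
    have := (Real.tendsto_exp_div_pow_atTop 1).comp (tendsto_natCast_atTop_atTop (R := ℝ))
    simpa [Function.comp_def] using this
  have T2 : Tendsto (fun l : ℕ => Real.exp ((l : ℝ) / 2) / ((l : ℝ) / 2)) atTop atTop := by
    have := (Real.tendsto_exp_div_pow_atTop 1).comp
      ((tendsto_natCast_atTop_atTop (R := ℝ)).atTop_div_const (by norm_num : (0 : ℝ) < 2))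
    simpa [Function.comp_def] using this
  obtain ⟨l, ⟨⟨⟨hla, hlb⟩, hlc⟩, hld⟩, hle⟩ :=
    ((((eventually_ge_atTop (max (max l0 l1) 8)).and
      (T1.eventually_ge_atTop (N0 / κ))).and (T1.eventually_ge_atTop (Real.log (3 * K)))).and
      (T2.eventually_ge_atTop (4 / κ))).and (eventually_ge_atTop 1) |>.exists
  have hl0' : l0 ≤ l := le_trans (le_trans (le_max_left _ _) (le_max_left _ _)) hla
  have hl1' : l1 ≤ l := le_trans (le_trans (le_max_right _ _) (le_max_left _ _)) hla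
  have hl8 : 8 ≤ l := le_trans (le_max_right _ _) hla
  have hl8' : (8 : ℝ) ≤ l := by exact_mod_cast hl8
  have hlpos : (0 : ℝ) < l := by linarith
  obtain ⟨B, n, Z, hn1, hn2, hZ, hcard, hB⟩ := hfam l hl0'
  have hnN : N0 ≤ (n : ℝ) := by
    refine le_trans ?_ hn1
    rw [div_le_iff₀ hκ] at hlb
    calc N0 ≤ Real.exp l / l * κ := hlb
      _ = κ * Real.exp l / l := by ring
  obtain ⟨h44, hg1, hg2, hg3⟩ := grow (M := M) (s := s) hw hx hnN
  have hnpos : (0 : ℝ) < n := by linarith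
  -- the choice of k
  set β : ℝ := (B.card : ℝ) * Real.exp (-(n / 2 : ℝ)) with hβ
  have hexp : Real.exp (n : ℝ) * Real.exp (-(n / 2 : ℝ)) = Real.exp ((n : ℝ) / 2) := by
    rw [← Real.exp_add]
    congr 1
    ring
  have hβZ : Z * Real.exp ((n : ℝ) / 2) ≤ β := by
    have h1 : Z * Real.exp n * Real.exp (-(n / 2 : ℝ)) ≤ B.card * Real.exp (-(n / 2 : ℝ)) := by
      gcongr
    calc Z * Real.exp ((n : ℝ) / 2) = Z * Real.exp n * Real.exp (-(n / 2 : ℝ)) := by
          rw [mul_assoc, hexp]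
      _ ≤ β := h1
  have hβe : Real.exp ((n : ℝ) / 2) ≤ β := by
    refine le_trans ?_ hβZ
    exact le_mul_of_one_le_left (Real.exp_pos _).le hZ
  have hen : 23 ≤ Real.exp ((n : ℝ) / 2) := by
    have := Real.add_one_le_exp ((n : ℝ) / 2)
    linarith
  obtain ⟨k, hk1, hk2⟩ := exists_nat_pow_near (x := β) (y := 2) (by linarith) (by norm_num)
  have hk3 : 3 ≤ k := by
    by_contra h
    have h4 : k + 1 ≤ 3 := by omega
    have h5 : (2 : ℝ) ^ (k + 1) ≤ 2 ^ 3 := pow_le_pow_right₀ (by norm_num) h4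
    norm_num at h5
    linarith
  set P : ℝ := 2 ^ k with hP
  have hPpos : 0 < P := by positivity
  have hP2 : β < 2 * P := by
    rw [pow_succ] at hk2
    linarith
  have hPe : Real.exp ((n : ℝ) / 2) / 2 ≤ P := by linarith
  -- the choice of t
  obtain ⟨t0, ht1, ht2⟩ := exists_nat_pow_near (x := P * P) (y := 3) (by nlinarith) (by norm_num)
  obtain ⟨t, ht⟩ : ∃ t, t = t0 + 1 := ⟨_, rfl⟩
  rw [← ht] at ht2
  have ht3 : (3 : ℝ) ^ t ≤ 3 * (P * P) := by
    rw [ht, pow_succ]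
    linarith
  have hPP : Real.exp (n : ℝ) / 4 ≤ P * P := by
    have h1 : Real.exp (n : ℝ) = Real.exp ((n : ℝ) / 2) * Real.exp ((n : ℝ) / 2) := by
      rw [← Real.exp_add]
      congr 1
      ring
    rw [h1]
    nlinarith [Real.exp_pos ((n : ℝ) / 2)]
  have h3t : Real.exp (n : ℝ) / 4 ≤ (3 : ℝ) ^ t := by linarith
  have hwP : 16 * ((n : ℝ) + 2) ≤ (y - x) * P := by
    have : (y - x) * (Real.exp ((n : ℝ) / 2) / 2) ≤ (y - x) * P := by gcongr
    linarith
  -- the exponential of l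
  have hel : 9 ≤ Real.exp (l : ℝ) := by
    have := Real.add_one_le_exp (l : ℝ)
    linarith
  have hsmall : Real.exp (-(l : ℝ) / 2) ≤ 1 / 32 := by
    have h1 : 32 ≤ Real.exp ((l : ℝ) / 2) := by
      have h2 : Real.exp 4 ≤ Real.exp ((l : ℝ) / 2) := Real.exp_le_exp.2 (by linarith)
      have h3 : Real.exp 1 ^ 4 = Real.exp 4 := by
        rw [← Real.exp_nat_mul]
        norm_num
      have h4 := Real.exp_one_gt_d9
      have h5 : (2.7 : ℝ) ^ 4 ≤ Real.exp 1 ^ 4 := by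
        apply pow_le_pow_left₀ (by norm_num)
        linarith
      norm_num at h5
      linarith
    rw [show -(l : ℝ) / 2 = -((l : ℝ) / 2) by ring, Real.exp_neg, ← one_div]
    exact one_div_le_one_div_of_le (by norm_num) h1
  have hb0 : ∀ b ∈ B, 0 < b := fun b hb => (hB b hb).1
  have hbcard : ∀ b ∈ B, ((3 ^ t * b).primeFactors.card : ℝ) ≤ n + 1 := by
    intro b hb
    have h1 := Finset.card_le_card (pf_sub t (hb0 b hb).ne')
    have h2 := Finset.card_insert_le 3 b.primeFactors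
    have h3 := (hB b hb).2.1
    have : (3 ^ t * b).primeFactors.card ≤ n + 1 := by omega
    exact_mod_cast this
  have h3b : ∀ b ∈ B, (3 : ℝ) ^ t ≤ ((3 ^ t * b : ℕ) : ℝ) := by
    intro b hb
    push_cast
    have : (1 : ℝ) ≤ b := by exact_mod_cast hb0 b hb
    exact le_mul_of_one_le_right (by positivity) this
  have hlarge : ∀ b ∈ B, ∀ p ∈ b.primeFactors, Real.exp (l : ℝ) < p := fun b hb p hp =>
    ((hB b hb).2.2.1 p hp).1
  have hodd : ∀ b ∈ B, ¬ 2 ∣ 3 ^ t * b := by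
    intro b hb h
    rcases (Nat.prime_two.dvd_mul).1 h with h1 | h1
    · have := Nat.prime_two.dvd_of_dvd_pow h1
      omega
    · have h2 := hlarge b hb 2 (Nat.mem_primeFactors.2 ⟨Nat.prime_two, h1, (hb0 b hb).ne'⟩)
      push_cast at h2
      linarith
  have hsum : ∀ b ∈ B, ∑ p ∈ (3 ^ t * b).primeFactors, 1 / (p : ℝ) ≤ 1 / 2 := by
    intro b hb
    have h3 : 3 ∉ b.primeFactors := by
      intro h
      have h2 := hlarge b hb 3 h
      push_cast at h2
      linarith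
    refine (Finset.sum_le_sum_of_subset_of_nonneg (pf_sub t (hb0 b hb).ne')
      fun p _ _ => by positivity).trans ?_
    rw [Finset.sum_insert h3]
    have h4 : ∑ p ∈ b.primeFactors, 1 / (p : ℝ) ≤ b.primeFactors.card • (1 / Real.exp (l : ℝ)) := by
      refine Finset.sum_le_card_nsmul _ _ _ fun p hp => ?_
      exact one_div_le_one_div_of_le (Real.exp_pos _) (hlarge b hb p hp).le
    rw [nsmul_eq_mul] at h4
    have h5 : (b.primeFactors.card : ℝ) ≤ Real.exp (l : ℝ) / 6 := by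
      refine le_trans ?_ hn2
      exact_mod_cast (hB b hb).2.1
    have h6 : (b.primeFactors.card : ℝ) * (1 / Real.exp (l : ℝ)) ≤ 1 / 6 := by
      rw [mul_one_div, div_le_iff₀ (Real.exp_pos _)]
      linarith
    push_cast
    linarith
  have hs : ∀ b ∈ B, |s| + 2 ≤ x * ((3 ^ t * b : ℕ) : ℝ) := by
    intro b hb
    have h1 : x * (Real.exp (n : ℝ) / 4) ≤ x * ((3 ^ t * b : ℕ) : ℝ) := by
      have := h3b b hb
      gcongr
      linarith
    linarith
  have hww : ∀ b ∈ B, 2 ^ k * (16 * (((3 ^ t * b).primeFactors.card : ℝ) + 1)) ≤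
      (y - x) * ((3 ^ t * b : ℕ) : ℝ) := by
    intro b hb
    have h1 := hbcard b hb
    have h2 : P * P ≤ ((3 ^ t * b : ℕ) : ℝ) := by
      have := h3b b hb
      linarith
    calc 2 ^ k * (16 * (((3 ^ t * b).primeFactors.card : ℝ) + 1))
        ≤ P * (16 * ((n : ℝ) + 2)) := mul_le_mul_of_nonneg_left (by linarith) hPpos.le
      _ ≤ P * ((y - x) * P) := by gcongr
      _ = (y - x) * (P * P) := by ring
      _ ≤ _ := by gcongr
  have hg : (2 : ℝ) ^ k ≤ (y - x) * 3 ^ t := by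
    have h1 : 1 ≤ (y - x) * P := by linarith
    calc (2 : ℝ) ^ k = P * 1 := by rw [mul_one]
      _ ≤ P * ((y - x) * P) := by gcongr
      _ = (y - x) * (P * P) := by ring
      _ ≤ _ := by
        gcongr
  have hE := hnear l hl1' n B fun b hb => ⟨(hB b hb).1, (hB b hb).2.1, (hB b hb).2.2.1⟩
  have hEB : Real.exp (8 * n * Real.exp (-(l : ℝ) / 2) + 8) ≤ (B.card : ℝ) / 2 ^ k := by
    have h1 : Real.exp (8 * n * Real.exp (-(l : ℝ) / 2) + 8) ≤ Real.exp ((n : ℝ) / 2) := by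
      apply Real.exp_le_exp.2
      have : 8 * (n : ℝ) * Real.exp (-(l : ℝ) / 2) ≤ 8 * (n : ℝ) * (1 / 32) := by gcongr
      linarith
    refine h1.trans ?_
    rw [le_div_iff₀ hPpos]
    have h2 : Real.exp ((n : ℝ) / 2) * P ≤ Real.exp ((n : ℝ) / 2) * β := by gcongr
    refine h2.trans (le_of_eq ?_)
    rw [hβ]
    have h3 : Real.exp ((n : ℝ) / 2) * Real.exp (-(n / 2 : ℝ)) = 1 := by
      rw [← Real.exp_add]
      simp
    linear_combination (B.card : ℝ) * h3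
  have hBne : B.Nonempty := by
    rw [← Finset.card_pos]
    have : (0 : ℝ) < B.card := lt_of_lt_of_le (by positivity) hcard
    exact_mod_cast this
  refine (mass hC hovl hFST hPZ B k t s x y _ hk3 hx hxy hb0 hodd hsum hs hww hg hE hEB
    hBne).trans (measure_mono ?_)
  rintro α ⟨hα, hα'⟩
  refine ⟨hα, ?_⟩
  simp only [Set.mem_iUnion, exists_prop] at hα'
  obtain ⟨b, hb, c, hc0, ⟨r, hr⟩, hcop, habs⟩ := hα'
  have hbt0 : 0 < 3 ^ t * b := Nat.mul_pos (by positivity) (hb0 b hb)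
  have hbt := h3b b hb
  have hMb : M ≤ 3 ^ t * b := by
    have : (M : ℝ) ≤ ((3 ^ t * b : ℕ) : ℝ) := by linarith
    exact_mod_cast this
  refine ⟨3 ^ t * b, c, hMb, hbt0, hc0, hcop, habs, ?_⟩
  obtain ⟨_, _, _, hrad, hbup⟩ := hB b hb
  have habs' := abs_le.1 habs
  have hcpos : (0 : ℝ) < c := by exact_mod_cast hc0
  have hr0 : 0 < r := by
    rcases Nat.eq_zero_or_pos r with h | h
    · rw [h, mul_zero] at hr
      omega
    · exact h
  -- the radical
  have hR : (rad (3 ^ t * b * c) : ℝ) ≤ 12 * c * Real.exp (-(n / 2 : ℝ)) := by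
    have h1 : rad (3 ^ t * b * c) ≤ 3 * rad b * (2 * r) := by
      refine (rad_mul_le hbt0.ne' hc0.ne').trans (Nat.mul_le_mul ?_ ?_)
      · refine (rad_mul_le (by positivity) (hb0 b hb).ne').trans ?_
        exact Nat.mul_le_mul_right _ (rad_pow_le Nat.prime_three t)
      · rw [hr]
        refine (rad_mul_le (by positivity) hr0.ne').trans ?_
        exact Nat.mul_le_mul (rad_pow_le Nat.prime_two k) (rad_le hr0)
    have h2 : (rad (3 ^ t * b * c) : ℝ) ≤ 3 * rad b * (2 * r) := by exact_mod_cast h1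
    have h3 : (c : ℝ) = P * r := by
      rw [hr, hP]
      push_cast
      ring
    have h4 : Z ≤ 2 * P * Real.exp (-(n / 2 : ℝ)) := by
      have h5 : Real.exp ((n : ℝ) / 2) * Real.exp (-(n / 2 : ℝ)) = 1 := by
        rw [← Real.exp_add]
        simp
      calc Z = Z * Real.exp ((n : ℝ) / 2) * Real.exp (-(n / 2 : ℝ)) := by
            rw [mul_assoc, h5, mul_one]
        _ ≤ 2 * P * Real.exp (-(n / 2 : ℝ)) := by
            have : Z * Real.exp ((n : ℝ) / 2) ≤ 2 * P := by linarith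
            gcongr
    have hr' : (0 : ℝ) ≤ r := by positivity
    calc (rad (3 ^ t * b * c) : ℝ) ≤ 3 * rad b * (2 * r) := h2
      _ ≤ 3 * Z * (2 * r) := by gcongr
      _ ≤ 3 * (2 * P * Real.exp (-(n / 2 : ℝ))) * (2 * r) := by gcongr
      _ = 12 * c * Real.exp (-(n / 2 : ℝ)) := by
          rw [h3]
          ring
  have hRpos : (0 : ℝ) < (rad (3 ^ t * b * c) : ℝ) := by exact_mod_cast rad_pos _
  have hlog : (n : ℝ) / 4 ≤ Real.log ((c : ℝ) / (rad (3 ^ t * b * c) : ℝ)) := by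
    have h1 : Real.exp ((n : ℝ) / 2) / 12 ≤ (c : ℝ) / (rad (3 ^ t * b * c) : ℝ) := by
      rw [le_div_iff₀ hRpos]
      calc Real.exp ((n : ℝ) / 2) / 12 * (rad (3 ^ t * b * c) : ℝ)
          ≤ Real.exp ((n : ℝ) / 2) / 12 * (12 * c * Real.exp (-(n / 2 : ℝ))) := by gcongr
        _ = c * (Real.exp ((n : ℝ) / 2) * Real.exp (-(n / 2 : ℝ))) := by ring
        _ = c := by
            rw [← Real.exp_add]
            simp
    have h2 := Real.log_le_log (by positivity) h1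
    rw [Real.log_div (Real.exp_pos _).ne' (by norm_num), Real.log_exp] at h2
    have h3 := Real.log_le_sub_one_of_pos (show (0 : ℝ) < 12 by norm_num)
    linarith
  -- the size of c
  have hαx : x ≤ α := hα.1
  have hαy : α ≤ x + 1 := hα.2.trans hy1
  have hb1 : (1 : ℝ) ≤ ((3 ^ t * b : ℕ) : ℝ) := by exact_mod_cast hbt0
  have hclow : Real.exp ((n : ℝ) / 2) ≤ c := by
    have h1 : x * (Real.exp (n : ℝ) / 4) ≤ α * ((3 ^ t * b : ℕ) : ℝ) := by
      have : Real.exp (n : ℝ) / 4 ≤ ((3 ^ t * b : ℕ) : ℝ) := by linarith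
      exact mul_le_mul hαx this (by positivity) (hx.le.trans hαx)
    have h2 := neg_abs_le s
    linarith [habs'.2]
  have hcup : (c : ℝ) ≤ K * ((3 ^ t * b : ℕ) : ℝ) := by
    have h1 : α * ((3 ^ t * b : ℕ) : ℝ) ≤ (x + 1) * ((3 ^ t * b : ℕ) : ℝ) := by gcongr
    have h2 := le_abs_self s
    have h3 : (1 + |s|) ≤ (1 + |s|) * ((3 ^ t * b : ℕ) : ℝ) :=
      le_mul_of_one_le_right (by positivity) hb1
    rw [hK]
    linarith [habs'.1]
  set Q : ℝ := Real.exp (2 * l) / l with hQ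
  have hQpos : 0 < Q := by positivity
  have hPQ : P ≤ Real.exp Q := by
    have h1 : (B.card : ℝ) ≤ Real.exp Q := by
      have h2 : B ⊆ Finset.Icc 1 ⌊Real.exp Q⌋₊ := by
        intro b' hb'
        rw [Finset.mem_Icc]
        exact ⟨hb0 b' hb', Nat.le_floor (hB b' hb').2.2.2.2⟩
      have h3 := Finset.card_le_card h2
      rw [Nat.card_Icc, Nat.add_sub_cancel] at h3
      calc (B.card : ℝ) ≤ (⌊Real.exp Q⌋₊ : ℝ) := by exact_mod_cast h3
        _ ≤ Real.exp Q := Nat.floor_le (Real.exp_pos _).le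
    have h4 : Real.exp (-(n / 2 : ℝ)) ≤ 1 := by
      rw [Real.exp_le_one_iff]
      linarith
    calc P ≤ β := hk1
      _ ≤ B.card * 1 := by
          rw [hβ]
          gcongr
      _ = B.card := mul_one _
      _ ≤ _ := h1
  have hL2 : Real.log c ≤ 4 * Q := by
    have h1 : (c : ℝ) ≤ 3 * K * Real.exp (3 * Q) := by
      have h2 : ((3 ^ t * b : ℕ) : ℝ) ≤ 3 * (Real.exp Q * Real.exp Q) * Real.exp Q := by
        push_cast
        have h3 : (3 : ℝ) ^ t ≤ 3 * (Real.exp Q * Real.exp Q) := by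
          refine ht3.trans ?_
          gcongr
        gcongr
      have h3 : Real.exp (3 * Q) = Real.exp Q * Real.exp Q * Real.exp Q := by
        rw [← Real.exp_add, ← Real.exp_add]
        congr 1
        ring
      rw [h3]
      calc (c : ℝ) ≤ K * ((3 ^ t * b : ℕ) : ℝ) := hcup
        _ ≤ K * (3 * (Real.exp Q * Real.exp Q) * Real.exp Q) := by gcongr
        _ = _ := by ring
    have h2 := Real.log_le_log hcpos h1
    rw [Real.log_mul (by positivity) (Real.exp_pos _).ne', Real.log_exp] at h2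
    have h3 : Real.exp (l : ℝ) / l ≤ Q := by
      rw [hQ]
      have : Real.exp (l : ℝ) ≤ Real.exp (2 * l) := Real.exp_le_exp.2 (by linarith)
      gcongr
    linarith
  have hL1 : Real.exp ((l : ℝ) / 2) ≤ Real.log c := by
    have h1 := Real.log_le_log (Real.exp_pos _) hclow
    rw [Real.log_exp] at h1
    have h2 := half_le hκ hlpos hld
    linarith
  have hV : V c ≤ 3 * (Real.exp (l : ℝ) / l) := V_le hlpos hL1 hL2
  calc κ / 12 * V c ≤ κ / 12 * (3 * (Real.exp (l : ℝ) / l)) := by gcongr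
    _ = κ * Real.exp l / l / 4 := by ring
    _ ≤ (n : ℝ) / 4 := by gcongr
    _ ≤ _ := hlog

end Pool.Agent.D0H25.AB
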